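import Mathlib
import Pool.Agent.R901.PT.Main

/-!
# The intersection pairing on the products of all varieties with abelian varieties of almost all slope
types of all CM fields

Let `K i` (`i` in a finite set) be CM fields of degree `2 g i`. Nothing is assumed about their Galois
groups. They are pairwise independent: for `i ≠ k` and all complex embeddings `φ` of `K i` and `ψ` of
`K k` some automorphism of `ℂ` is the identity on `φ (K i)` and the complex conjugation on `ψ (K k)`
(this is no condition if there is only one field). We fix an isomorphism `ν` of the algebraic closure
of `ℚ_p` with `ℂ`; it defines a `p`-adic valuation of `ℂ`, with the value one at `p`. Let `M i` be a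
function with nonzero integral values, all of which divide `n i`, on the complex embeddings of
`K i`, invariant under complex conjugation. A CM type `Φ i` of `K i` (a choice of one element out of
each complex conjugate pair of embeddings; there are `2 ^ (g i)` types), `M i` and a real number
`κ ≠ 0` prescribe the slopes `(a + κ M) / 2` (at the embeddings in `Φ i`) and `(a - κ M) / 2` (outside
of `Φ i`) of a Weil number for `p ^ a` in `K i` (`HasType`). If `p` splits completely in `K i` then,
by Honda and Tate, all slopes with rational values between `0` and `a` that are symmetric in this way
occur for abelian varieties over finite fields. The case `M = 1`, `κ = a` is the case of ordinary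
abelian varieties; the assumption on `M` says that `a / 2` is not a slope. Slopes are rational, so
integral weights `M` are no restriction.

There are `2 ^ (∑ i, g i)` families of CM types `Φ i` of the fields `K i`. A family is exceptional
(`exceptionalFamilies ν K M`) if the following statement (`Holds`) is false for it. Let `π i` be Weil
numbers for `q = p ^ a` that generate the fields `K i` and have the slope types `Φ i`, `M i`, and let
`f i` be monic polynomials whose complex roots are conjugates of `π i` (`IsPolyOf`), for instance the
characteristic polynomials of Frobenius of the abelian varieties in the isogeny classes of the `π i`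
over the field with `q` elements. Let `A` be an abelian variety over the field with `Q = q ^ s`
elements which is isogenous to a product of powers of abelian varieties coming from the field with
`q` elements, with characteristic polynomials `f i`, and let `Z` be any smooth projective variety
over the field with `Q` elements such that

* the eigenvalues `ρ` of Frobenius on the cohomology of `Z` and their conjugates are unrelated to
  the fields `K i` (`UnrelatedTo`): a function `n` on the complex embeddings of `K i` with
  `n (conj φ) = - n φ` which is invariant under all automorphisms of `ℂ` that fix a power of `ρ` is
  zero. This is so if for each embedding `ψ` of `K i` some automorphism which fixes a power of `ρ` is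
  the complex conjugation on `ψ (K i)`: for instance, if a power of `ρ` lies in a field linearly
  disjoint from the normal closures of the `K i`, or in a totally real field. It is also so if the
  degree of `ρ` is less than twice the dimension of each nonzero space of functions `n` stable under
  all automorphisms of `ℂ` (less than `2 g i` if this representation is irreducible, as it is for
  generic CM fields);
* homologically trivial self-correspondences of degree zero of `A × Z` are nilpotent
  (`Nilpotence`), for instance the motive of `Z` is finite-dimensional in the sense of Kimura and
  O'Sullivan. This is known for all varieties dominated by products of curves, and for their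
  products with `A`.

Then the Kunneth formula `⨁ CH^i(A)_ℚ ⊗ CH^(n-i)(Z)_ℚ = CH^n(A × Z)_ℚ` holds: there are finitely many
products `D j` of divisors on `A`, of codimension `c j`, such that
`CH^n(A × Z)_ℚ = ⨁ D j × CH^(n - c j)(Z)_ℚ` for all `n` (`ChowKunneth`), and **the pairing**
`CH^n(A × Z)_ℝ × CH^(d-n)(A × Z)_ℝ → ℝ`, `d = dim A + dim Z`, **of the question is perfect if and
only if the pairings** `CH^m(Z)_ℝ × CH^(dim Z - m)(Z)_ℝ → ℝ` **with** `n - dim A ≤ m ≤ n` **are
perfect** (`PerfectTimes`). In particular the conjecture of Beilinson for `A × Z` is equivalent to
the one for `Z`, degree by degree. As all `s` are allowed, this is so over all finite extensions of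
the ground field. For `Z` a point, a curve, or a surface with the two properties all pairings
for `Z` are perfect, by the theorems quoted in the question, and so are all pairings for `A × Z`:
for `Z` a point this is the conjecture for `A` in all degrees, `A` of any dimension. No conjecture is
assumed. The Frobenius endomorphism acts on `CH^i(A × Z)_ℚ` as multiplication by `Q ^ i`.

In the starting file `AlmostAllAbelianPerfect` of this folder the dimension of `A` is fixed, `q` is
large and the exceptional set is a small proportion of all isogeny classes over the field with `q`
elements (they have generic Galois groups). Here `q` and the CM fields are arbitrary: all Galois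
groups, also abelian ones, for which the results of the starting file say nothing, and all slopes
different from `a / 2`.

The framework (`TheoryData`, `IsChow`, `IsWeil`) is the one of helper492: the Chow groups `C` with
their pull-backs, push-forwards and products, and a Weil cohomology theory `H` with coefficients in
an algebraically closed field, on a class `𝒱` of smooth proper varieties over `k`. The space
`CH^n(X)_ℝ` is `ℝ ⊗ CH^n(X)`, the tensor product over `ℚ` of `ℝ` with the Chow group with rational
coefficients.

The theorem bounds the number of the exceptional families: it is at most
`2 ^ (∑ i, g i) * ∑ i, C * (n i) ^ 2 * rate (K i) (g i) (q i)`, with an absolute constant `C`. Here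
`q i` is any prime factor of `g i` (or `q i = 1`), and `rate K g q` is `(1 + log (2 g)) ^ 16` times
the smaller of the numbers

* `W (K) / √g`, where (second part of the theorem, `WeightEstimate`) `W (K) ≤ N ^ 2 * D ^ (1 / 4)`;
  `N` is the number of the CM subfields of `K` (with `K`) and `D` is the largest degree of a CM
  subfield of `K` that is normal over `ℚ` with a nonabelian Galois group (`D = 1` if there are none);
* `√g / q`.

So the exceptional types are a proportion `O (n ^ 2 * g ^ (-1 / 4) * (log g) ^ 16)` of all types of
all CM fields with a bounded number of CM subfields, and `O (n ^ 2 * g ^ (-1 / 2) * (log g) ^ 16)` if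
the normal nonabelian ones have bounded degrees (for instance if `K` has no proper CM subfields and
is not normal). The exponent `1 / 2` is sharp if `K` contains an imaginary quadratic field. And they
are a proportion `O (n ^ 2 * g ^ (-δ) * (log g) ^ 16)` of the types of all CM fields `K`, with any
number of subfields, whose degree is divisible by a prime number `q ≥ g ^ (1 / 2 + δ)`; for small `δ`
there are such primes for about `log 2`, that is 69%, of all numbers `g`. Some assumption is
necessary: a multiquadratic CM field of degree `2 g` has `g` imaginary quadratic subfields, and by a
second moment argument almost all of its types are degenerate. The counting part of the theorem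
(the bound for the number of the degenerate types) is the one of `AllCMFields` (MP_e12fcd_ag), by
helper1 and others of this team.

The number `W (K)` (`subfieldWeight K`) is defined as follows. The automorphisms of `ℂ` act on the
rational functions on the set of the complex embeddings of `K` which change their sign under complex
conjugation. A field of definition (`fieldsOfDefinition K`) of an isotypic component of this
representation is a smallest subfield `F` of `K` such that the values of the functions in the
component depend only on the restrictions of the embeddings to `F`. It is a CM field. Then `W (K)` is
the sum over these fields `F` of the number of the CM subfields of `F`, multiplied by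
`[F : ℚ] ^ (1 / 4)` if `F` is normal over `ℚ` and its Galois group is not abelian.

The proof. Suppose that the product of `ρ` and of some eigenvalues `φ (π i)` of `A`, no two of them
complex conjugate, is a power of `q`, up to a root of unity. For an automorphism `σ` of `ℂ` the
`p`-adic valuations of the images under `σ` give a linear relation between the signed weights
`± M i (σ φ)` whose right side is a function of the valuation of `σ ρ`. It does not change if `σ` is
multiplied by an automorphism `τ` which fixes a power of `ρ`. The difference of the two relations is
homogeneous; if the types are not degenerate it is trivial, so that the exponents (more precisely,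
the differences of the exponents of complex conjugate embeddings) are invariant under `τ`. So they
are zero, as `ρ` is unrelated to the fields `K i`. (This part, and the bound for the number of the
degenerate types, are those of `AllCMTypesTimes`, MP_5f0950_ag, and of `AllCMFields`, MP_e12fcd_ag.)
It follows that the generalized eigenvectors of Frobenius in the cohomology of `A × Z` for the
eigenvalues `Q ^ i` are sums of products of classes of products of divisors on `A` and of classes on
`Z`. Let `e` be the projector given by the `D j` and dual classes `D' j`, and `P` a polynomial killing
all the other eigenvalues and with `P (Q ^ i) = 1`. The correspondence `(1 - e) P (F)` is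
homologically trivial, hence nilpotent; as it acts on `CH^i(A × Z)_ℚ` as the idempotent `1 - e`, this
idempotent is zero (the idea to play the eigenvalues of Frobenius off against nilpotence is due to
Soule, Geisser and Kahn). So `CH^n(A × Z)_ℚ` is the sum of the `CH^(n - c j)(Z)_ℚ`, and
`deg ((D j × z) (D' l × w)) = δ_{jl} deg (z w)`: the pairing of the question for `A × Z` is the
orthogonal sum of the pairings for `Z`, and every `m` with `n - dim A ≤ m ≤ n` occurs, since the
powers of an ample divisor on `A` have non-zero classes.
-/

set_option autoImplicit false

namespace Pool.Agent.Results.MP_4960c7_ag.AllCMTypesPerfect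

open NumberField Module Pool.Agent.H204R3.CM Pool.Agent.H977R3.CM Pool.Agent.TH170
  Pool.Agent.Y1.KN Pool.Agent.Y1.CT Pool.Agent.R901.PT

/-- The reduction of the conjecture for `A × Z` to the one for `Z` holds for all abelian varieties
`A` whose Frobenius eigenvalues are powers of conjugates of Weil numbers with the slope types `Φ i`,
`M i`, and all `Z` unrelated to the fields `K i` with nilpotent homologically trivial
correspondences. -/
def Holds {p : ℕ} [Fact p.Prime] (ν : PadicAlgCl p ≃+* ℂ) {I : Type} (K : I → Type)
    [∀ i, Field (K i)] [∀ i, NumberField (K i)] [∀ i, IsCMField (K i)]
    (M : ∀ i, (K i →+* ℂ) → ℤ) (Φ : ∀ i, Set (K i →+* ℂ)) : Prop :=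
  ForAllTypes ν K M (PerfectTimes K) Φ

/-- The exceptional families of CM types. -/
def exceptionalFamilies {p : ℕ} [Fact p.Prime] (ν : PadicAlgCl p ≃+* ℂ) {I : Type} (K : I → Type)
    [∀ i, Field (K i)] [∀ i, NumberField (K i)] [∀ i, IsCMField (K i)]
    (M : ∀ i, (K i →+* ℂ) → ℤ) : Set (∀ i, Set (K i →+* ℂ)) :=
  {Φ | (∀ i, IsCMType (Φ i)) ∧ ¬ Holds ν K M Φ}

/-- **The pairing `CH^n(A × Z)_ℝ × CH^(d-n)(A × Z)_ℝ → ℝ` is perfect if and only if the pairings
`CH^m(Z)_ℝ × CH^(dim Z - m)(Z)_ℝ → ℝ`, `n - dim A ≤ m ≤ n`, are perfect, for the abelian varieties `A`
of almost all slope types of all CM fields and all unrelated varieties `Z` with nilpotent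
homologically trivial correspondences.** -/
theorem result :
    (∃ C : ℝ, 0 ≤ C ∧ ∀ (p : ℕ) [Fact p.Prime] (ν : PadicAlgCl p ≃+* ℂ) (I : Type) [Fintype I]
      (K : I → Type) [∀ i, Field (K i)] [∀ i, NumberField (K i)] [∀ i, IsCMField (K i)]
      (M : ∀ i, (K i →+* ℂ) → ℤ) (n g q : I → ℕ), PairwiseIndep K →
      (∀ i φ, M i (ComplexEmbedding.conjugate φ) = M i φ) → (∀ i, n i ≠ 0) →
      (∀ i φ, M i φ ∣ (n i : ℤ)) → (∀ i, finrank ℚ (K i) = 2 * g i) →
      (∀ i, q i ∣ g i ∧ (q i = 1 ∨ (q i).Prime)) →
      ((exceptionalFamilies ν K M).ncard : ℝ) ≤
        2 ^ (∑ i, g i) * ∑ i, C * (n i : ℝ) ^ 2 * rate (K i) (g i) (q i)) ∧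
    WeightEstimate := by
  obtain ⟨C, hC0, hC⟩ := ncard_of_unrel
  refine ⟨⟨C, hC0, ?_⟩, weight_estimate_holds⟩
  intro p _ ν I _ K _ _ _ M n g q hind hM hn hMn hg hq
  exact hC p ν I K M n g q hind hM hn hMn hg hq _ fun Q f hQ hR => perfectTimes hQ hR

end Pool.Agent.Results.MP_4960c7_ag.AllCMTypesPerfect
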