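import Pool.Agent.R910.Pow.Num

/-!
# MP_4960c7_ag: rational and numerical equivalence for polynomials in divisor classes

Let `k` be a field, for example a finite field. All varieties are smooth and projective over `k` (and geometrically
integral), and `CH ^ p (X)` denotes the Chow group with rational coefficients.

**Theorem.** These are equivalent.

1. Rational and numerical equivalence coincide, with rational coefficients, for all cycles on all varieties.
2. For all varieties `X` and all `p`: each linear combination `∑ a_s D_s ^ p` of `p`-th powers of divisor classes (that
   is, each homogeneous polynomial of degree `p` in divisor classes) which is numerically trivial is `0` in `CH ^ p (X)`.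
3. For all varieties `X`, all divisor classes `D` on `X` and all `r`: if `D ^ r` is numerically trivial, then `D ^ r = 0`
   in `CH ^ r (X)`.

So Beilinson's conjecture over finite fields, for all cycles, is equivalent to the statement that each divisor class
`D` has the same index of nilpotence in the Chow ring as in the ring of cycles modulo numerical equivalence; and to
the property which Beauville and Voisin proved for K3 surfaces over `ℂ`, that the subring of the Chow ring which is
generated by the divisor classes injects into the ring of cycles modulo numerical equivalence, for all varieties over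
finite fields. Over a finite field `CH ^ 1 (X) = N ^ 1 (X)` has finite dimension, so 2 and 3 are statements on the
values in `CH ^ p (X)` of polynomials on the finite-dimensional space `N ^ 1 (X)`.

More precisely, each class `w` in `CH ^ p (X)` is interchangeable with a power `D ^ r` of a divisor class on some `Y`,
which means that `w` and `D ^ r` are images of each other under correspondences; so `w` is numerically trivial if and
only if `D ^ r` is, and `w = 0` if and only if `D ^ r = 0`.

In the Lean statement `𝒮` is the set of all varieties. `IsLineFor` is the projective line, and `HasProjectiveBundles`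
collects textbook facts on vector bundles, their Chern classes and Chern characters (with the identities of Newton),
sums, tensor products, Serre's theorem (for `V` there is a line bundle `L` such that `V ⊗ L` is a sub-bundle of a
trivial bundle), the isomorphism `ch : K_0(X) → CH(X)` (rationally), and projective bundles: `q_* ξ ^ (r - 1) = 1`,
`q_* ξ ^ i = 0` for `i < r - 1`, `∑ c_i ξ ^ (r - i) = 0`.

Proof. Replacing `w` by `w × point` on `X × ℙ ^ 1` we may assume `p ≥ 1`. Choose bundles `V`, `V'` with
`ch V - ch V' = N w`, `N ≠ 0`, and `L`, `Q` with `ch(V' ⊗ L) + ch(Q) = m`. Then `U = (V ⊗ L) ⊕ Q` has the Chern character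
`m + N w ch(L)`, so that the Chern classes of `U` of positive degree are multiples of `w`, and `w` is in the ideal
which they generate, by Newton's identities. Let `q : Y → X` be the projective bundle of `U`, of rank `r`, and
`D = ξ`. Since `D ^ r = - ∑ c_i(U) D ^ (r - i)`, `D ^ r` is a multiple of `q^* w`; and since
`q_*(D ^ (r - 1 + i)) = - c_i(U) - ⋯`, the `c_i(U)`, and so `w`, are in the ideal `q_*(D ^ r · CH(Y))` of `CH(X)`.
-/

open CategoryTheory AlgebraicGeometry
open Pool.Agent.H914 Pool.Agent.H914.VarClass Pool.Agent.H914.VarClass.Obj

universe u v w

namespace Pool.Agent.Results.MP_4960c7_ag.DivisorPolynomials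

open Pool.Agent.R903 Pool.Agent.R910.Nil Pool.Agent.R910.Pow

/-- **Rational and numerical equivalence coincide for all cycles if they coincide for powers of divisor classes.** -/
theorem result {k : Type u} [Field k] {𝒱 : VarClass k} {C : ChowTheory.{u, v} 𝒱}
    (B : BundleData.{u, v, w} C) (𝒮 : Set 𝒱.Obj) (P : 𝒱.Obj) (hP : IsLineFor C 𝒮 P)
    (hR : HasProjectiveBundles B 𝒮) :
    (∀ X ∈ 𝒮, ∀ (p : ℕ) (w : C.CH X), IsCodim C p w → IsPowerOn C 𝒮 w) ∧
    List.TFAE [RatEqNum C 𝒮, RatEqNumForPolynomials C 𝒮, RatEqNumForPowers C 𝒮] :=
  ⟨fun _ hX _ _ hw => isPowerOn_self hP hR hX hw, ratEqNum_tfae hP hR⟩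

end Pool.Agent.Results.MP_4960c7_ag.DivisorPolynomials
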